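import Mathlib
import Pool.Agent.Y912.HL.Dir
import Pool.Agent.Helper540.Near
import Pool.Agent.Helper540.Osgood

set_option autoImplicit false

namespace Pool.Agent.Results.MP_2306a6_an.HilbertReachable

open Metric Set Filter Topology Pool.Agent.Helper540 Pool.Agent.Y912.HL

section Defs

variable {H : Type*} [NormedAddCommGroup H] [InnerProductSpace ℂ H]

/-- `f` is univalent (biholomorphic onto an open set) on the open unit ball of `H`: it is
holomorphic, the image is open, and there is a holomorphic inverse on the image. -/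
def Univalent (f : H → H) : Prop :=
  DifferentiableOn ℂ f (ball 0 1) ∧ IsOpen (f '' ball 0 1) ∧
    ∃ g : H → H, DifferentiableOn ℂ g (f '' ball 0 1) ∧ ∀ z ∈ ball (0 : H) 1, g (f z) = z

/-- A normalized Loewner chain on the unit ball of the complex Hilbert space `H`: every `F t`,
`t ≥ 0`, is univalent on the ball, `F t 0 = 0`, `D(F t)(0) = e^t I`, and the images increase. -/
structure IsLoewnerChain (F : ℝ → H → H) : Prop where
  univ : ∀ t, 0 ≤ t → Univalent (F t)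
  zero : ∀ t, 0 ≤ t → F t 0 = 0
  deriv : ∀ t, 0 ≤ t → fderiv ℂ (F t) 0 =
    ((Real.exp t : ℝ) : ℂ) • ContinuousLinearMap.id ℂ H
  sub : ∀ s t, 0 ≤ s → s ≤ t → F s '' ball 0 1 ⊆ F t '' ball 0 1

/-- A family of maps is normal on the unit ball if every sequence in it has a subsequence which
converges locally uniformly on the ball. -/
def IsNormalFamily (𝓕 : Set (H → H)) : Prop :=
  ∀ g : ℕ → H → H, (∀ k, g k ∈ 𝓕) → ∃ φ : ℕ → ℕ, StrictMono φ ∧ ∃ G : H → H,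
    TendstoLocallyUniformlyOn (fun k => g (φ k)) G atTop (ball 0 1)

/-- A family of maps is locally bounded if it is uniformly bounded on every ball of radius `< 1`
(the condition used in place of normality in infinite dimension). -/
def IsLocallyBounded (𝓕 : Set (H → H)) : Prop :=
  ∀ r : ℝ, r < 1 → ∃ K : ℝ, ∀ g ∈ 𝓕, ∀ z : H, ‖z‖ ≤ r → ‖g z‖ ≤ K

/-- The class `S^0` of maps with parametric representation: `f = F 0` for a normalized Loewner
chain `F` such that the family of the maps `e^{-t} F t`, `t ≥ 0`, has the property `𝒩`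
(`𝒩 = IsNormalFamily` or `𝒩 = IsLocallyBounded`). -/
def classS0 (𝒩 : Set (H → H) → Prop) : Set (H → H) :=
  {f | ∃ F : ℝ → H → H, IsLoewnerChain F ∧ F 0 = f ∧
    𝒩 {g | ∃ t : ℝ, 0 ≤ t ∧ g = fun z => ((Real.exp (-t) : ℝ) : ℂ) • F t z}}

/-- The maps reachable in time `T`: `f = F 0` for a normalized Loewner chain with
`F T z = e^T z` on the ball (so that `‖f‖ ≤ e^T`). -/
def reachable (H : Type*) [NormedAddCommGroup H] [InnerProductSpace ℂ H] (T : ℝ) :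
    Set (H → H) :=
  {f | ∃ F : ℝ → H → H, IsLoewnerChain F ∧ F 0 = f ∧
    ∀ z ∈ ball (0 : H) 1, F T z = ((Real.exp T : ℝ) : ℂ) • z}

/-- The second order term `P_2(z) = (1/2) (d/dζ)^2 f(ζ z)` at `ζ = 0`, which is
`(1/2) D^2 f(0)(z,z)`. -/
noncomputable def quadPart (f : H → H) (z : H) : H :=
  (1 / 2 : ℂ) • iteratedDeriv 2 (fun ζ : ℂ => f (ζ • z)) 0

/-- `‖P_2‖`, the supremum of `‖P_2(z)‖` over the unit sphere. -/
noncomputable def quadNorm (f : H → H) : ℝ :=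
  sSup ((fun z => ‖quadPart f z‖) '' sphere (0 : H) 1)

end Defs

variable {H : Type*} [NormedAddCommGroup H] [InnerProductSpace ℂ H]

theorem quadPart_eq (f : H → H) (z : H) : quadPart f z = tc 2 (fun ζ : ℂ => f (ζ • z)) := by
  rw [quadPart, tc]
  congr 1
  norm_num [Nat.factorial]

theorem Univalent.injOn {f : H → H} (hf : Univalent f) : InjOn f (ball 0 1) := by
  obtain ⟨_, _, g, _, hg⟩ := hf
  intro z hz w hw h
  rw [← hg z hz, ← hg w hw, h]

/-- The transition maps of a Loewner chain. -/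
theorem transition {F : ℝ → H → H} (hF : IsLoewnerChain F) {s t : ℝ} (hs : 0 ≤ s) (hst : s ≤ t) :
    ∃ v : H → H, DifferentiableOn ℂ v (ball 0 1) ∧ MapsTo v (ball 0 1) (ball 0 1) ∧ v 0 = 0 ∧
      (∀ z ∈ ball (0 : H) 1, F t (v z) = F s z) ∧
      fderiv ℂ v 0 = ((Real.exp (s - t) : ℝ) : ℂ) • ContinuousLinearMap.id ℂ H := by
  have ht : 0 ≤ t := hs.trans hst
  obtain ⟨hdt, hot, g, hgd, hg⟩ := hF.univ t ht
  obtain ⟨hds, -, -⟩ := hF.univ s hs
  have hsub := hF.sub s t hs hst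
  set v : H → H := fun z => g (F s z) with hv
  have hmem : ∀ z ∈ ball (0 : H) 1, v z ∈ ball (0 : H) 1 ∧ F t (v z) = F s z := by
    intro z hz
    obtain ⟨w, hw, hwz⟩ := hsub ⟨z, hz, rfl⟩
    have h1 : v z = w := by
      simp only [hv]
      rw [← hwz, hg w hw]
    rw [h1]
    exact ⟨hw, hwz⟩
  have h0 : (0 : H) ∈ ball (0 : H) 1 := mem_ball_self one_pos
  have hv0 : v 0 = 0 := by
    apply (hF.univ t ht).injOn (hmem 0 h0).1 h0
    rw [(hmem 0 h0).2, hF.zero s hs, hF.zero t ht]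
  have hd : DifferentiableOn ℂ v (ball 0 1) :=
    hgd.comp hds (fun z hz => hsub ⟨z, hz, rfl⟩)
  refine ⟨v, hd, fun z hz => (hmem z hz).1, hv0, fun z hz => (hmem z hz).2, ?_⟩
  have hb : ball (0 : H) 1 ∈ 𝓝 (0 : H) := isOpen_ball.mem_nhds h0
  have hvd : HasFDerivAt v (fderiv ℂ v 0) 0 := (hd.differentiableAt hb).hasFDerivAt
  have hFt : HasFDerivAt (F t) (fderiv ℂ (F t) 0) (v 0) := by
    rw [hv0]
    exact (hdt.differentiableAt hb).hasFDerivAt
  have hFs : HasFDerivAt (F s) (fderiv ℂ (F s) 0) 0 := (hds.differentiableAt hb).hasFDerivAt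
  have hcomp := hFt.comp 0 hvd
  have heq : F t ∘ v =ᶠ[𝓝 0] F s := by
    filter_upwards [hb] with z hz using (hmem z hz).2
  have h1 := (hcomp.congr_of_eventuallyEq heq.symm).unique hFs
  rw [hF.deriv t ht, hF.deriv s hs] at h1
  have hexp : ((Real.exp (s - t) : ℝ) : ℂ) * ((Real.exp t : ℝ) : ℂ) = ((Real.exp s : ℝ) : ℂ) := by
    rw [← Complex.ofReal_mul, ← Real.exp_add]; congr 2; ring
  have hne : ((Real.exp t : ℝ) : ℂ) ≠ 0 := by exact_mod_cast (Real.exp_pos t).ne'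
  ext1 x
  have h2 := congrArg (fun T : H →L[ℂ] H => T x) h1
  simp only [ContinuousLinearMap.comp_apply, smul_apply,
    ContinuousLinearMap.id_apply] at h2 ⊢
  have h3 : ((Real.exp t : ℝ) : ℂ) • (fderiv ℂ v 0 x - ((Real.exp (s - t) : ℝ) : ℂ) • x) = 0 := by
    rw [smul_sub, h2, smul_smul, mul_comm, hexp, sub_self]
  exact sub_eq_zero.1 ((smul_eq_zero.1 h3).resolve_left hne)

/-- The normalized component of the second coefficient along a chain. -/
noncomputable def cof (F : ℝ → H → H) (w u : H) (t : ℝ) : ℝ :=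
  Real.exp (-t) * ‖inner ℂ w (tc 2 (fun ζ : ℂ => F t (ζ • u)))‖

theorem slice_diff {h : H → H} (hd : DifferentiableOn ℂ h (ball 0 1)) {u : H} (hu : ‖u‖ ≤ 1) :
    DifferentiableOn ℂ (fun ζ : ℂ => h (ζ • u)) (ball 0 1) := by
  apply hd.comp (by fun_prop)
  intro ζ hζ
  rw [mem_ball_zero_iff] at *
  rw [norm_smul]
  calc ‖ζ‖ * ‖u‖ ≤ ‖ζ‖ * 1 := by gcongr
    _ < 1 := by linarith

/-- `C` bounds the component in the direction `w` of the second coefficient at `u` for all maps of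
the Caratheodory family. -/
def CBound (w u : H) (C : ℝ) : Prop :=
  ∀ g : H → H, DifferentiableOn ℂ g (ball 0 1) → g 0 = 0 →
    fderiv ℂ g 0 = ContinuousLinearMap.id ℂ H →
    (∀ z ∈ ball (0 : H) 1, 0 ≤ (inner ℂ z (g z)).re) →
    ‖inner ℂ w (tc 2 (fun ζ : ℂ => g (ζ • u)))‖ ≤ C

variable [CompleteSpace H]

theorem cof_step {F : ℝ → H → H} (hF : IsLoewnerChain F) {w u : H} (hu : ‖u‖ = 1) {C : ℝ}
    (hC : CBound w u C) {s δ : ℝ} (hs : 0 ≤ s) (hδ : 0 < δ) :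
    cof F w u s ≤ C * (Real.exp δ - 1) + Real.exp (-δ) * cof F w u (s + δ) := by
  have ht : 0 ≤ s + δ := by linarith
  obtain ⟨v, hvd, hvm, hv0, hvF, hvD⟩ := transition hF hs (by linarith : s ≤ s + δ)
  have e0 : s - (s + δ) = -δ := by ring
  rw [e0] at hvD
  set lam : ℝ := Real.exp (-δ) with hlam
  have hlam0 : 0 < lam := Real.exp_pos _
  have hlam1 : lam < 1 := by rw [hlam, Real.exp_lt_one_iff]; linarith
  have hlδ : lam * Real.exp δ = 1 := by rw [hlam, ← Real.exp_add]; simp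
  have hlamC : (1 - (lam : ℂ)) ≠ 0 := by
    intro h
    have : (1 - lam : ℝ) = 0 := by exact_mod_cast h
    linarith
  -- the bound for the transition map
  set g : H → H := fun z => (1 - (lam : ℂ))⁻¹ • (z - v z) with hg
  have hgd : DifferentiableOn ℂ g (ball 0 1) := by
    have h1 : DifferentiableOn ℂ (fun z : H => z) (ball 0 1) := differentiableOn_id
    exact (h1.fun_sub hvd).fun_const_smul ((1 - (lam : ℂ))⁻¹)
  have hg0 : g 0 = 0 := by simp [hg, hv0]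
  have hb : ball (0 : H) 1 ∈ 𝓝 (0 : H) := ball_mem_nhds _ one_pos
  have hvd0 : HasFDerivAt v ((lam : ℂ) • ContinuousLinearMap.id ℂ H) 0 := by
    rw [← hvD]
    exact (hvd.differentiableAt hb).hasFDerivAt
  have hgD : fderiv ℂ g 0 = ContinuousLinearMap.id ℂ H := by
    have h1 : HasFDerivAt g ((1 - (lam : ℂ))⁻¹ • (ContinuousLinearMap.id ℂ H -
        (lam : ℂ) • ContinuousLinearMap.id ℂ H)) 0 :=
      ((hasFDerivAt_id (𝕜 := ℂ) (0 : H)).sub hvd0).const_smul (1 - (lam : ℂ))⁻¹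
    rw [h1.fderiv]
    ext1 x
    show (1 - (lam : ℂ))⁻¹ • (x - (lam : ℂ) • x) = x
    rw [show x - (lam : ℂ) • x = (1 - (lam : ℂ)) • x by rw [sub_smul, one_smul], smul_smul,
      inv_mul_cancel₀ hlamC, one_smul]
  have hgpos : ∀ z ∈ ball (0 : H) 1, 0 ≤ (inner ℂ z (g z)).re := by
    intro z hz
    have hvz : ‖v z‖ ≤ ‖z‖ := Complex.norm_le_norm_of_mapsTo_ball hvd
      (hvm.mono_right ball_subset_closedBall) hv0 (mem_ball_zero_iff.1 hz)
    have h1 : inner ℂ z (g z) = ((1 - lam : ℝ) : ℂ)⁻¹ * (inner ℂ z z - inner ℂ z (v z)) := by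
      rw [hg]
      simp only [inner_smul_right, inner_sub_right]
      push_cast
      ring
    rw [h1, ← Complex.ofReal_inv, Complex.re_ofReal_mul, Complex.sub_re]
    have h2 : (inner ℂ z z : ℂ).re = ‖z‖ ^ 2 := by
      have := inner_self_eq_norm_sq (𝕜 := ℂ) z
      simpa using this
    have h3 : (inner ℂ z (v z) : ℂ).re ≤ ‖z‖ * ‖v z‖ :=
      (Complex.re_le_norm _).trans (norm_inner_le_norm _ _)
    have h4 : ‖z‖ * ‖v z‖ ≤ ‖z‖ * ‖z‖ := by gcongr
    apply mul_nonneg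
    · exact inv_nonneg.2 (by linarith)
    · rw [h2]; nlinarith
  have hcoef := hC g hgd hg0 hgD hgpos
  have hvs : DifferentiableOn ℂ (fun ζ : ℂ => v (ζ • u)) (ball 0 1) := slice_diff hvd hu.le
  have hvtc : ‖inner ℂ w (tc 2 (fun ζ : ℂ => v (ζ • u)))‖ ≤ (1 - lam) * C := by
    have h1 : tc 2 (fun ζ : ℂ => v (ζ • u)) =
        -((1 - (lam : ℂ)) • tc 2 (fun ζ : ℂ => g (ζ • u))) := by
      have h2 : (fun ζ : ℂ => v (ζ • u)) = fun ζ : ℂ => ζ ^ 1 • u -
          ((1 - (lam : ℂ)) • ContinuousLinearMap.id ℂ H) (g (ζ • u)) := by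
        ext1 ζ
        simp only [hg, smul_apply, ContinuousLinearMap.id_apply, smul_smul,
          mul_inv_cancel₀ hlamC, one_smul, pow_one]
        abel
      have hgs : ContDiffAt ℂ 2 (fun ζ : ℂ => g (ζ • u)) 0 :=
        contDiffAt_of_ball one_pos (slice_diff hgd hu.le) 2
      have hgs2 : ContDiffAt ℂ 2 (fun ζ : ℂ => ((1 - (lam : ℂ)) •
          ContinuousLinearMap.id ℂ H) (g (ζ • u))) 0 :=
        (ContinuousLinearMap.contDiff _).contDiffAt.comp 0 hgs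
      rw [h2, tc_sub 2 (by fun_prop) hgs2, tc_pow_smul, if_neg (by norm_num), tc_clm _ 2 hgs]
      simp
    rw [h1, inner_neg_right, norm_neg, inner_smul_right, norm_mul]
    have h3 : ‖(1 - (lam : ℂ))‖ = 1 - lam := by
      have : (1 - (lam : ℂ)) = ((1 - lam : ℝ) : ℂ) := by push_cast; ring
      rw [this, Complex.norm_real, Real.norm_of_nonneg (by linarith)]
    rw [h3]
    exact mul_le_mul_of_nonneg_left hcoef (by linarith)
  -- the expansion of the composition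
  have hFs := (hF.univ s hs).1
  have hFt := (hF.univ (s + δ) ht).1
  set A : ℂ := ((Real.exp (s + δ) : ℝ) : ℂ) with hA
  have hFtD : fderiv ℂ (F (s + δ)) 0 = A • ContinuousLinearMap.id ℂ H := hF.deriv _ ht
  obtain ⟨d1, hd1, C1, hC1, hd1R, hb1⟩ := near_zero_gen one_pos hFt
  obtain ⟨d2, hd2, C2, hC2, hd2R, hb2⟩ := near_zero_gen one_pos hvd
  have hslF : ∀ a : ℂ, ‖a‖ ≤ 1 → DifferentiableOn ℂ
      (fun ζ : ℂ => F (s + δ) ((ζ * a) • u)) (ball 0 1) := by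
    intro a ha
    have h1 : (fun ζ : ℂ => F (s + δ) ((ζ * a) • u)) = fun ζ : ℂ => F (s + δ) (ζ • (a • u)) := by
      ext1 ζ; rw [smul_smul]
    rw [h1]
    apply slice_diff hFt
    rw [norm_smul, hu, mul_one]
    exact ha
  have hlamn : ‖(lam : ℂ)‖ = lam := by rw [Complex.norm_real, Real.norm_of_nonneg hlam0.le]
  have hdiffR : DifferentiableOn ℂ (fun ζ : ℂ => F s (ζ • u) - F (s + δ) ((ζ * (lam : ℂ)) • u) -
      (A • ContinuousLinearMap.id ℂ H) (v (ζ • u) -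
        ζ ^ 1 • ((lam : ℂ) • u))) (ball 0 1) := by
    apply DifferentiableOn.sub
    · exact (slice_diff hFs hu.le).sub (hslF _ (by rw [hlamn]; exact hlam1.le))
    · apply (ContinuousLinearMap.differentiable _).comp_differentiableOn
      exact hvs.sub (by fun_prop)
  have hzero : tc 2 (fun ζ : ℂ => F s (ζ • u) - F (s + δ) ((ζ * (lam : ℂ)) • u) -
      (A • ContinuousLinearMap.id ℂ H) (v (ζ • u) -
        ζ ^ 1 • ((lam : ℂ) • u))) = 0 := by
    set ρ : ℝ := min d1 d2 with hρ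
    have hρ0 : 0 < ρ := lt_min hd1 hd2
    have hρ1 : ρ ≤ 1 := (min_le_left _ _).trans hd1R.le
    apply tc_eq_zero_of_bound (R := ρ) (C := C1 * C2) 2 hρ0
      (hdiffR.mono (ball_subset_ball hρ1))
    intro ζ hζ
    rw [mem_ball_zero_iff] at hζ
    have hζ1 : ‖ζ • u‖ = ‖ζ‖ := by rw [norm_smul, hu, mul_one]
    have hζb : ζ • u ∈ ball (0 : H) 1 := by
      rw [mem_ball_zero_iff, hζ1]; linarith
    have hvζ : ‖v (ζ • u)‖ ≤ ‖ζ‖ := by
      rw [← hζ1]
      exact Complex.norm_le_norm_of_mapsTo_ball hvd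
        (hvm.mono_right ball_subset_closedBall) hv0 (mem_ball_zero_iff.1 hζb)
    have hlζ : ‖(ζ * (lam : ℂ)) • u‖ ≤ ‖ζ‖ := by
      rw [norm_smul, norm_mul, hu, mul_one, hlamn]
      exact mul_le_of_le_one_right (norm_nonneg _) hlam1.le
    have hp1 : ‖v (ζ • u)‖ < d1 := hvζ.trans_lt (hζ.trans_le (min_le_left _ _))
    have hp2 : ‖(ζ * (lam : ℂ)) • u‖ < d1 := hlζ.trans_lt (hζ.trans_le (min_le_left _ _))
    have h1 := hb1 _ _ hp1 hp2
    rw [hvF _ hζb, hFtD] at h1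
    have h2 := hb2 (ζ • u) 0 (by rw [hζ1]; exact hζ.trans_le (min_le_right _ _))
      (by rw [norm_zero]; exact hd2)
    rw [hv0, hvD, sub_zero, sub_zero, norm_zero, hζ1, max_eq_left (norm_nonneg _)] at h2
    have h3 : ‖v (ζ • u) - (ζ * (lam : ℂ)) • u‖ ≤ C2 * ‖ζ‖ * ‖ζ‖ := by
      have h4 : ((lam : ℂ) • ContinuousLinearMap.id ℂ H) (ζ • u) = (ζ * (lam : ℂ)) • u := by
        simp only [smul_apply, ContinuousLinearMap.id_apply, smul_smul]
        rw [mul_comm]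
      rw [h4] at h2
      exact h2
    have h5 : max ‖v (ζ • u)‖ ‖(ζ * (lam : ℂ)) • u‖ ≤ ‖ζ‖ := max_le hvζ hlζ
    have h6 : ζ ^ 1 • ((lam : ℂ) • u) = (ζ * (lam : ℂ)) • u := by rw [pow_one, smul_smul]
    rw [h6]
    calc _ ≤ C1 * max ‖v (ζ • u)‖ ‖(ζ * (lam : ℂ)) • u‖ *
          ‖v (ζ • u) - (ζ * (lam : ℂ)) • u‖ := h1
      _ ≤ C1 * ‖ζ‖ * (C2 * ‖ζ‖ * ‖ζ‖) := by gcongr
      _ = C1 * C2 * ‖ζ‖ ^ (2 + 1) := by ring
  have hsF : ContDiffAt ℂ 2 (fun ζ : ℂ => F s (ζ • u)) 0 :=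
    contDiffAt_of_ball one_pos (slice_diff hFs hu.le) 2
  have hsFt : ContDiffAt ℂ 2 (fun ζ : ℂ => F (s + δ) ((ζ * (lam : ℂ)) • u)) 0 :=
    contDiffAt_of_ball one_pos (hslF _ (by rw [hlamn]; exact hlam1.le)) 2
  have hsv : ContDiffAt ℂ 2 (fun ζ : ℂ => v (ζ • u)) 0 := contDiffAt_of_ball one_pos hvs 2
  have hsp : ContDiffAt ℂ 2 (fun ζ : ℂ => ζ ^ 1 • ((lam : ℂ) • u)) 0 := by fun_prop
  have hsc2 : ContDiffAt ℂ 2 (fun ζ : ℂ => (A • ContinuousLinearMap.id ℂ H)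
      (v (ζ • u) - ζ ^ 1 • ((lam : ℂ) • u))) 0 :=
    (ContinuousLinearMap.contDiff _).contDiffAt.comp 0 (hsv.sub hsp)
  rw [tc_sub 2 (hsF.sub hsFt) hsc2, tc_sub 2 hsF hsFt, tc_clm _ 2 (hsv.sub hsp), tc_sub 2 hsv hsp,
    tc_pow_smul, if_neg (by norm_num), sub_zero] at hzero
  have hsc : tc 2 (fun ζ : ℂ => F (s + δ) ((ζ * (lam : ℂ)) • u)) =
      (lam : ℂ) ^ 2 • tc 2 (fun ζ : ℂ => F (s + δ) (ζ • u)) := by
    have := tc_comp_smul one_pos (slice_diff hFt hu.le) 2 (lam : ℂ)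
    simpa [smul_eq_mul] using this
  rw [hsc] at hzero
  have hmain : tc 2 (fun ζ : ℂ => F s (ζ • u)) =
      (lam : ℂ) ^ 2 • tc 2 (fun ζ : ℂ => F (s + δ) (ζ • u)) +
        A • tc 2 (fun ζ : ℂ => v (ζ • u)) := by
    have h1 : tc 2 (fun ζ : ℂ => F s (ζ • u)) -
      ((lam : ℂ) ^ 2 • tc 2 (fun ζ : ℂ => F (s + δ) (ζ • u)) +
        A • tc 2 (fun ζ : ℂ => v (ζ • u))) = 0 := by
      rw [← hzero]
      simp only [smul_apply, ContinuousLinearMap.id_apply]
      abel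
    exact sub_eq_zero.1 h1
  have hn : ‖inner ℂ w (tc 2 (fun ζ : ℂ => F s (ζ • u)))‖ ≤
      lam ^ 2 * ‖inner ℂ w (tc 2 (fun ζ : ℂ => F (s + δ) (ζ • u)))‖ +
        Real.exp (s + δ) * ((1 - lam) * C) := by
    rw [hmain, inner_add_right, inner_smul_right, inner_smul_right]
    refine (norm_add_le _ _).trans ?_
    rw [norm_mul, norm_mul, norm_pow, hlamn, hA, Complex.norm_real,
      Real.norm_of_nonneg (Real.exp_pos _).le]
    gcongr
  rw [cof, cof]
  have e1 : Real.exp (-s) * Real.exp (s + δ) = Real.exp δ := by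
    rw [← Real.exp_add]; congr 1; ring
  have e2 : Real.exp (-s) * lam = Real.exp (-(s + δ)) := by
    rw [hlam, ← Real.exp_add]; congr 1; ring
  calc Real.exp (-s) * ‖inner ℂ w (tc 2 (fun ζ : ℂ => F s (ζ • u)))‖
      ≤ Real.exp (-s) * (lam ^ 2 * ‖inner ℂ w (tc 2 (fun ζ : ℂ => F (s + δ) (ζ • u)))‖ +
        Real.exp (s + δ) * ((1 - lam) * C)) := by
        gcongr
    _ = C * ((Real.exp (-s) * Real.exp (s + δ)) * (1 - lam)) + lam * ((Real.exp (-s) * lam) *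
        ‖inner ℂ w (tc 2 (fun ζ : ℂ => F (s + δ) (ζ • u)))‖) := by ring
    _ = C * (Real.exp δ - 1) + lam * (Real.exp (-(s + δ)) *
        ‖inner ℂ w (tc 2 (fun ζ : ℂ => F (s + δ) (ζ • u)))‖) := by
        rw [e1, e2]
        have : Real.exp δ * (1 - lam) = Real.exp δ - 1 := by
          rw [mul_sub, mul_one, mul_comm (Real.exp δ) lam, hlδ]
        rw [this]

theorem cof_iter {F : ℝ → H → H} (hF : IsLoewnerChain F) {w u : H} (hu : ‖u‖ = 1) {C : ℝ}
    (hC : CBound w u C) {δ : ℝ} (hδ : 0 < δ) (k : ℕ) :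
    cof F w u 0 ≤ C * Real.exp δ * (1 - Real.exp (-(k * δ))) +
      Real.exp (-(k * δ)) * cof F w u (k * δ) := by
  induction k with
  | zero => simp
  | succ k ih =>
    have hk : (0 : ℝ) ≤ k * δ := by positivity
    have h1 := cof_step hF hu hC hk hδ
    have h2 := mul_le_mul_of_nonneg_left h1 (Real.exp_pos (-(k * δ))).le
    have e1 : Real.exp (-(((k + 1 : ℕ) : ℝ) * δ)) = Real.exp (-(k * δ)) * Real.exp (-δ) := by
      rw [← Real.exp_add]; congr 1; push_cast; ring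
    have e2 : ((k + 1 : ℕ) : ℝ) * δ = k * δ + δ := by push_cast; ring
    have e3 : Real.exp δ * Real.exp (-δ) = 1 := by rw [← Real.exp_add]; simp
    rw [e1, e2]
    refine (ih.trans (add_le_add_right h2 _)).trans (le_of_eq ?_)
    linear_combination C * Real.exp (-(k * δ)) * e3

/-- The sharp inequality along a chain. -/
theorem cof_le {F : ℝ → H → H} (hF : IsLoewnerChain F) {w u : H} (hu : ‖u‖ = 1) {C : ℝ}
    (hC : CBound w u C) {t : ℝ} (ht : 0 < t) :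
    cof F w u 0 ≤ C * (1 - Real.exp (-t)) + Real.exp (-t) * cof F w u t := by
  have h1 : ∀ k : ℕ, cof F w u 0 ≤ C * Real.exp (t / ((k : ℝ) + 1)) * (1 - Real.exp (-t)) +
      Real.exp (-t) * cof F w u t := by
    intro k
    have hk : (0 : ℝ) < (k : ℝ) + 1 := by positivity
    have h2 := cof_iter hF hu hC (div_pos ht hk) (k + 1)
    have e1 : ((k + 1 : ℕ) : ℝ) * (t / ((k : ℝ) + 1)) = t := by
      push_cast
      field_simp
    rw [e1] at h2
    exact h2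
  have h2 : Tendsto (fun k : ℕ => C * Real.exp (t / ((k : ℝ) + 1)) * (1 - Real.exp (-t)) +
      Real.exp (-t) * cof F w u t) atTop (𝓝 (C * Real.exp 0 * (1 - Real.exp (-t)) +
      Real.exp (-t) * cof F w u t)) := by
    apply Tendsto.add_const
    apply Tendsto.mul_const
    apply Tendsto.const_mul
    apply (Real.continuous_exp.tendsto 0).comp
    have h3 : Tendsto (fun k : ℕ => (1 : ℝ) / ((k : ℝ) + 1)) atTop (𝓝 0) :=
      tendsto_one_div_add_atTop_nhds_zero_nat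
    have h4 := h3.const_mul t
    rw [mul_zero] at h4
    refine h4.congr (fun k => ?_)
    ring
  rw [Real.exp_zero, mul_one] at h2
  exact ge_of_tendsto' h2 h1

theorem inner_le_of_bdd {F : ℝ → H → H} (hF : IsLoewnerChain F) {w u : H} (hu : ‖u‖ = 1) {C : ℝ}
    (hC : CBound w u C) (hb : ∃ M : ℝ, ∀ᶠ t in atTop, cof F w u t ≤ M) :
    ‖inner ℂ w (quadPart (F 0) u)‖ ≤ C := by
  obtain ⟨M, hM⟩ := hb
  have h0 : cof F w u 0 = ‖inner ℂ w (quadPart (F 0) u)‖ := by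
    simp [cof, quadPart_eq]
  rw [← h0]
  have h2 : Tendsto (fun t : ℝ => C * (1 - Real.exp (-t)) + Real.exp (-t) * M) atTop
      (𝓝 (C * (1 - 0) + 0 * M)) := by
    have h3 : Tendsto (fun t : ℝ => Real.exp (-t)) atTop (𝓝 0) :=
      Real.tendsto_exp_neg_atTop_nhds_zero
    exact ((h3.const_sub 1).const_mul C).add (h3.mul_const M)
  rw [sub_zero, mul_one, zero_mul, add_zero] at h2
  refine ge_of_tendsto h2 ?_
  filter_upwards [hM, eventually_gt_atTop 0] with t ht ht0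
  refine (cof_le hF hu hC ht0).trans ?_
  have := mul_le_mul_of_nonneg_left ht (Real.exp_pos (-t)).le
  linarith

theorem tc_bound {g : H → H} (hgd : DifferentiableOn ℂ g (ball 0 1)) {r B : ℝ} (hr : 0 < r)
    (hr1 : r < 1) (hB : ∀ z, ‖z‖ ≤ r → ‖g z‖ ≤ B) {u : H} (hu : ‖u‖ = 1) :
    ‖tc 2 (fun ζ : ℂ => g (ζ • u))‖ ≤ B / r ^ 2 := by
  have h2 : DiffContOnCl ℂ (fun ζ : ℂ => g (ζ • u)) (ball 0 r) := by
    apply DifferentiableOn.diffContOnCl_ball (slice_diff hgd hu.le)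
    exact closedBall_subset_ball hr1
  have h3 := Complex.norm_iteratedDeriv_le_of_forall_mem_sphere_norm_le 2 hr
    h2 (C := B) (by
      intro ζ hζ
      apply hB
      rw [norm_smul, hu, mul_one]
      rw [mem_sphere_zero_iff_norm] at hζ
      exact hζ.le)
  rw [tc, norm_smul]
  have h4 : ‖((Nat.factorial 2 : ℕ) : ℂ)⁻¹‖ = 1 / 2 := by norm_num [Nat.factorial]
  rw [h4]
  norm_num [Nat.factorial] at h3
  rw [show B / r ^ 2 = 1 / 2 * (2 * B / r ^ 2) by ring]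
  gcongr

theorem cof_eq_norm {F : ℝ → H → H} {t : ℝ} (hd : DifferentiableOn ℂ (F t) (ball 0 1)) {w u : H}
    (hu : ‖u‖ = 1) :
    cof F w u t =
      ‖inner ℂ w (tc 2 (fun ζ : ℂ => (fun z => ((Real.exp (-t) : ℝ) : ℂ) • F t z) (ζ • u)))‖ := by
  have h2 : (fun ζ : ℂ => (fun z => ((Real.exp (-t) : ℝ) : ℂ) • F t z) (ζ • u)) = fun ζ : ℂ =>
      (((Real.exp (-t) : ℝ) : ℂ) • ContinuousLinearMap.id ℂ H) (F t (ζ • u)) := rfl
  have h3 : ContDiffAt ℂ 2 (fun ζ : ℂ => F t (ζ • u)) 0 :=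
    contDiffAt_of_ball one_pos (slice_diff hd hu.le) 2
  rw [h2, tc_clm _ 2 h3]
  simp only [smul_apply, ContinuousLinearMap.id_apply]
  rw [inner_smul_right, norm_mul, Complex.norm_real, Real.norm_of_nonneg (Real.exp_pos _).le, cof]

theorem cof_le_of_bound {F : ℝ → H → H} {t : ℝ} (hd : DifferentiableOn ℂ (F t) (ball 0 1))
    {w u : H} (hw : ‖w‖ = 1) (hu : ‖u‖ = 1) {r B : ℝ} (hr : 0 < r) (hr1 : r < 1)
    (hB : ∀ z, ‖z‖ ≤ r → ‖((Real.exp (-t) : ℝ) : ℂ) • F t z‖ ≤ B) : cof F w u t ≤ B / r ^ 2 := by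
  rw [cof_eq_norm hd hu]
  refine (norm_inner_le_norm _ _).trans ?_
  rw [hw, one_mul]
  exact tc_bound (hd.fun_const_smul _) hr hr1 hB hu

theorem bdd_of_locBdd {F : ℝ → H → H} (hF : IsLoewnerChain F)
    (hN : IsLocallyBounded {g | ∃ t : ℝ, 0 ≤ t ∧ g = fun z => ((Real.exp (-t) : ℝ) : ℂ) • F t z})
    {w u : H} (hw : ‖w‖ = 1) (hu : ‖u‖ = 1) : ∃ M : ℝ, ∀ᶠ t in atTop, cof F w u t ≤ M := by
  obtain ⟨K, hK⟩ := hN (1 / 2) (by norm_num)
  refine ⟨K / (1 / 2) ^ 2, ?_⟩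
  filter_upwards [eventually_ge_atTop 0] with t ht
  apply cof_le_of_bound (hF.univ t ht).1 hw hu (by norm_num) (by norm_num)
  intro z hz
  exact hK _ ⟨t, ht, rfl⟩ z hz

theorem bdd_of_normal {F : ℝ → H → H} (hF : IsLoewnerChain F)
    (hN : IsNormalFamily {g | ∃ t : ℝ, 0 ≤ t ∧ g = fun z => ((Real.exp (-t) : ℝ) : ℂ) • F t z})
    {w u : H} (hw : ‖w‖ = 1) (hu : ‖u‖ = 1) : ∃ M : ℝ, ∀ᶠ t in atTop, cof F w u t ≤ M := by
  by_contra hcon
  push Not at hcon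
  have hch : ∀ k : ℕ, ∃ t : ℝ, 0 ≤ t ∧ (k : ℝ) < cof F w u t := by
    intro k
    obtain ⟨t, ht1, ht2⟩ := ((hcon k).and_eventually (eventually_ge_atTop 0)).exists
    exact ⟨t, ht2, ht1⟩
  choose τ hτ0 hτ using hch
  set g : ℕ → H → H := fun k z => ((Real.exp (-(τ k)) : ℝ) : ℂ) • F (τ k) z with hg
  obtain ⟨φ, hφ, G, hG⟩ := hN g (fun k => ⟨τ k, hτ0 k, rfl⟩)
  have hgd : ∀ k, DifferentiableOn ℂ (g k) (ball 0 1) := fun k =>
    (hF.univ _ (hτ0 k)).1.fun_const_smul _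
  have h0 : (0 : H) ∈ ball (0 : H) 1 := mem_ball_self one_pos
  rw [Metric.tendstoLocallyUniformlyOn_iff] at hG
  obtain ⟨V, hV, hV2⟩ := hG 1 one_pos 0 h0
  rw [isOpen_ball.nhdsWithin_eq h0] at hV
  obtain ⟨N, hNN⟩ := eventually_atTop.1 hV2
  have hcN : ContinuousAt (g (φ N)) 0 :=
    ((hgd _).differentiableAt (ball_mem_nhds _ one_pos)).continuousAt
  have hW : {z | ‖g (φ N) z‖ < ‖g (φ N) 0‖ + 1} ∈ 𝓝 (0 : H) := by
    have := hcN.norm.eventually (gt_mem_nhds (by linarith : ‖g (φ N) 0‖ < ‖g (φ N) 0‖ + 1))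
    exact this
  obtain ⟨ε, hε, hεs⟩ := Metric.mem_nhds_iff.1 (inter_mem hV hW)
  set r : ℝ := min (ε / 2) (1 / 2) with hr
  have hr0 : 0 < r := lt_min (by positivity) (by norm_num)
  have hr1 : r < 1 := (min_le_right _ _).trans_lt (by norm_num)
  have hrε : r < ε := (min_le_left _ _).trans_lt (by linarith)
  set B : ℝ := ‖g (φ N) 0‖ + 1 with hB
  have hbound : ∀ k, N ≤ k → ∀ z : H, ‖z‖ ≤ r → ‖g (φ k) z‖ ≤ B + 2 := by
    intro k hk z hz
    have hzm : z ∈ ball (0 : H) ε := by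
      rw [mem_ball_zero_iff]; linarith
    obtain ⟨hz1, hz2⟩ := hεs hzm
    have h1 := hNN k hk z hz1
    have h2 := hNN N le_rfl z hz1
    have h3 : ‖g (φ N) z‖ < B := hz2
    rw [dist_eq_norm] at h1 h2
    have h4 : g (φ k) z = g (φ N) z + ((G z - g (φ N) z) - (G z - g (φ k) z)) := by abel
    rw [h4]
    refine (norm_add_le _ _).trans ?_
    have h5 := norm_sub_le (G z - g (φ N) z) (G z - g (φ k) z)
    linarith
  have hcof : ∀ k, N ≤ k → cof F w u (τ (φ k)) ≤ (B + 2) / r ^ 2 := by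
    intro k hk
    apply cof_le_of_bound (hF.univ _ (hτ0 _)).1 hw hu hr0 hr1
    intro z hz
    exact hbound k hk z hz
  obtain ⟨m, hm⟩ := exists_nat_gt ((B + 2) / r ^ 2)
  have h1 := hcof (max N m) (le_max_left _ _)
  have h2 := hτ (φ (max N m))
  have h3 : (m : ℝ) ≤ (φ (max N m) : ℝ) := by
    exact_mod_cast (le_max_right N m).trans (hφ.id_le _)
  linarith

theorem inner_le_classS0 {𝒩 : Set (H → H) → Prop} (h𝒩 : 𝒩 = IsNormalFamily ∨ 𝒩 = IsLocallyBounded)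
    {f : H → H} (hf : f ∈ classS0 𝒩) {w u : H} (hw : ‖w‖ = 1) (hu : ‖u‖ = 1) {C : ℝ}
    (hC : CBound w u C) : ‖inner ℂ w (quadPart f u)‖ ≤ C := by
  obtain ⟨F, hF, rfl, hN⟩ := hf
  apply inner_le_of_bdd hF hu hC
  rcases h𝒩 with h | h
  · rw [h] at hN
    exact bdd_of_normal hF hN hw hu
  · rw [h] at hN
    exact bdd_of_locBdd hF hN hw hu

theorem inner_le_reachable {T : ℝ} (hT : 0 < T)
    {f : H → H} (hf : f ∈ reachable H T) {w u : H} (hu : ‖u‖ = 1) {C : ℝ}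
    (hC : CBound w u C) : ‖inner ℂ w (quadPart f u)‖ ≤ C * (1 - Real.exp (-T)) := by
  obtain ⟨F, hF, rfl, hFT⟩ := hf
  have h0 : cof F w u 0 = ‖inner ℂ w (quadPart (F 0) u)‖ := by
    simp [cof, quadPart_eq]
  rw [← h0]
  have h1 := cof_le hF hu hC hT
  have h2 : tc 2 (fun ζ : ℂ => F T (ζ • u)) = 0 := by
    have h3 : (fun ζ : ℂ => F T (ζ • u)) =ᶠ[𝓝 0]
        fun ζ : ℂ => ζ ^ 1 • (((Real.exp T : ℝ) : ℂ) • u) := by
      filter_upwards [ball_mem_nhds (0 : ℂ) one_pos] with ζ hζ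
      rw [mem_ball_zero_iff] at hζ
      rw [hFT (ζ • u) (by rw [mem_ball_zero_iff, norm_smul, hu, mul_one]; exact hζ), pow_one,
        smul_comm]
    rw [tc_congr 2 h3, tc_pow_smul, if_neg (by norm_num)]
  have h4 : cof F w u T = 0 := by rw [cof, h2]; simp
  rw [h4, mul_zero, add_zero] at h1
  exact h1

theorem cbound_norm (w u : H) (hw : ‖w‖ = 1) (hu : ‖u‖ = 1) :
    CBound w u (3 * Real.sqrt 3 / 2) := by
  intro g hgd hg0 hgD hgpos
  refine (norm_inner_le_norm _ _).trans ?_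
  rw [hw, one_mul]
  refine (norm_tc_le hgd hg0 hgD hgpos (le_refl 2) hu).trans (le_of_eq ?_)
  have h1 : (((2 : ℕ) + 1 : ℝ) ^ (2 + 1) / ((2 : ℕ) : ℝ) ^ 2) = (3 * Real.sqrt 3 / 2) ^ 2 := by
    have := Real.sq_sqrt (by norm_num : (0 : ℝ) ≤ 3)
    push_cast
    nlinarith
  rw [h1, Real.sqrt_sq (by positivity)]

theorem cbound_dir {w u : H} (hw : ‖w‖ = 1) (hu : ‖u‖ = 1) {X : ℝ} (hX : X ∈ Icc (1 / 3 : ℝ) 1)
    (hc : ‖inner ℂ u w‖ ^ 2 * (X ^ 2 * (3 - X)) = 3 * X - 1) :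
    CBound w u (4 / (Real.sqrt X * (3 - X))) := fun _ hgd hg0 hgD hgpos =>
  dir_two hgd hg0 hgD hgpos hu hw hX hc

omit [CompleteSpace H] in
theorem norm_le_of_inner {P : H} {C : ℝ} (hC0 : 0 ≤ C) (h : ∀ w : H, ‖w‖ = 1 → ‖inner ℂ w P‖ ≤ C) :
    ‖P‖ ≤ C := by
  rcases eq_or_ne P 0 with hP0 | hP0
  · rw [hP0, norm_zero]; exact hC0
  have hp : 0 < ‖P‖ := norm_pos_iff.2 hP0
  have hw₀n : ‖((‖P‖ : ℂ)⁻¹) • P‖ = 1 := by
    rw [norm_smul, norm_inv, Complex.norm_real, norm_norm, inv_mul_cancel₀ hp.ne']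
  have := h _ hw₀n
  rw [inner_smul_left, inner_self_eq_norm_sq_to_K, map_inv₀, Complex.conj_ofReal, norm_mul,
    norm_inv, Complex.norm_real, norm_norm, norm_pow] at this
  simp only [Complex.coe_algebraMap, Complex.norm_real, norm_norm] at this
  rwa [pow_two, ← mul_assoc, inv_mul_cancel₀ hp.ne', one_mul] at this

/-- The elementary inequality behind the subordination of the extremal chain. -/
theorem core_ineq {x s lam : ℝ} (hs : 0 ≤ s) (h1 : x ^ 2 + s ≤ 1) (hl : 0 < lam)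
    (hl1 : lam ≤ 1) :
    lam ^ 2 * (1 + 3 * Real.sqrt 3 * (1 - lam) * x * s + 27 / 4 * (1 - lam) ^ 2 * s ^ 2) ≤ 1 := by
  set r : ℝ := Real.sqrt 3 with hr
  have hr0 : 0 < r := Real.sqrt_pos.2 (by norm_num)
  have hr2 : r ^ 2 = 3 := Real.sq_sqrt (by norm_num)
  have e1 : 2 * lam * (r * x) ≤ 3 * x ^ 2 + lam ^ 2 := by nlinarith [sq_nonneg (r * x - lam)]
  have e2 : 3 * r * lam ^ 2 * x * s ≤ 3 / 2 * lam * (3 * (1 - s) + lam ^ 2) * s := by
    have e3 : 3 * x ^ 2 + lam ^ 2 ≤ 3 * (1 - s) + lam ^ 2 := by linarith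
    have e4 : 0 ≤ lam * s := by positivity
    nlinarith [mul_le_mul_of_nonneg_left (e1.trans e3) e4]
  set A : ℝ := 3 / 2 * lam * (3 + lam ^ 2) with hA
  set B : ℝ := 9 / 4 * lam * (2 - 3 * lam + 3 * lam ^ 2) with hB
  have hB0 : 0 < B := by
    have : 0 < 2 - 3 * lam + 3 * lam ^ 2 := by nlinarith [sq_nonneg (lam - 1 / 2)]
    positivity
  have hdisc : A ^ 2 ≤ 4 * B * (1 + lam) := by
    have h5 : 4 * B * (1 + lam) - A ^ 2 =
        9 / 4 * lam * (1 - lam) ^ 2 * (8 + 3 * lam - 2 * lam ^ 2 - lam ^ 3) := by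
      rw [hA, hB]; ring
    have h6 : 0 ≤ 8 + 3 * lam - 2 * lam ^ 2 - lam ^ 3 := by
      have : lam ^ 2 ≤ 1 := pow_le_one₀ hl.le hl1
      have : lam ^ 3 ≤ 1 := pow_le_one₀ hl.le hl1
      linarith
    have h7 : 0 ≤ 9 / 4 * lam * (1 - lam) ^ 2 * (8 + 3 * lam - 2 * lam ^ 2 - lam ^ 3) := by
      positivity
    linarith
  have hquad : 0 ≤ 1 + lam - A * s + B * s ^ 2 := by
    have h8 : 4 * B * (1 + lam - A * s + B * s ^ 2) = (2 * B * s - A) ^ 2 +
        (4 * B * (1 + lam) - A ^ 2) := by ring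
    have h9 : 0 ≤ 4 * B * (1 + lam - A * s + B * s ^ 2) := by
      rw [h8]
      have := sq_nonneg (2 * B * s - A)
      linarith
    exact nonneg_of_mul_nonneg_right h9 (by positivity)
  have hfin : 3 * r * lam ^ 2 * x * s + 27 / 4 * lam ^ 2 * (1 - lam) * s ^ 2 ≤ 1 + lam := by
    have h10 : 3 / 2 * lam * (3 * (1 - s) + lam ^ 2) * s + 27 / 4 * lam ^ 2 * (1 - lam) * s ^ 2 =
        A * s - B * s ^ 2 := by
      rw [hA, hB]; ring
    linarith
  have hm := mul_le_mul_of_nonneg_left hfin (sub_nonneg.2 hl1)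
  nlinarith

section Extremal

omit [CompleteSpace H]

/-- The shear `z + a ⟨z, e₂⟩² e₁`. -/
noncomputable def extr (e₁ e₂ : H) (a : ℝ) (z : H) : H :=
  z + ((a : ℂ) * (inner ℂ e₂ z) ^ 2) • e₁

theorem extr_hasFDerivAt (e₁ e₂ : H) (a : ℝ) (z : H) :
    HasFDerivAt (extr e₁ e₂ a)
      (ContinuousLinearMap.id ℂ H +
        ((a : ℂ) • ((2 : ℕ) * (inner ℂ e₂ z) ^ (2 - 1)) • (innerSL ℂ e₂)).smulRight e₁) z := by
  have h0 : HasFDerivAt (fun z : H => (inner ℂ e₂ z : ℂ)) (innerSL ℂ e₂) z :=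
    (innerSL ℂ e₂).hasFDerivAt
  have h1 := h0.pow 2
  have h2 := h1.const_mul (a : ℂ)
  have h3 := h2.smul_const e₁
  have h4 := (hasFDerivAt_id z).add h3
  refine h4.congr_fderiv ?_
  ext w
  simp

theorem inner_extr {e₁ e₂ : H} (h12 : inner ℂ e₂ e₁ = 0) (a : ℝ) (z : H) :
    inner ℂ e₂ (extr e₁ e₂ a z) = inner ℂ e₂ z := by
  rw [extr, inner_add_right, inner_smul_right, h12, mul_zero, add_zero]

theorem extr_add {e₁ e₂ : H} (h12 : inner ℂ e₂ e₁ = 0) (a b : ℝ) (z : H) :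
    extr e₁ e₂ a (extr e₁ e₂ b z) = extr e₁ e₂ (a + b) z := by
  have h := inner_extr h12 b z
  rw [extr, h, extr, extr, add_assoc, ← add_smul]
  congr 2
  push_cast
  ring

theorem extr_zero' (e₁ e₂ : H) (z : H) : extr e₁ e₂ 0 z = z := by simp [extr]

theorem extr_smul {e₁ e₂ : H} (a m : ℝ) (z : H) :
    extr e₁ e₂ a ((m : ℂ) • z) = (m : ℂ) • extr e₁ e₂ (a * m) z := by
  rw [extr, extr, smul_add, inner_smul_right, smul_smul]
  congr 2
  push_cast
  ring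

/-- The chain `e^t (z + β(t) ⟨z, e₂⟩² e₁)`. -/
noncomputable def chainMap (e₁ e₂ : H) (β : ℝ → ℝ) (t : ℝ) (z : H) : H :=
  ((Real.exp t : ℝ) : ℂ) • extr e₁ e₂ (β t) z

theorem exp_ne (t : ℝ) : ((Real.exp t : ℝ) : ℂ) ≠ 0 := by
  exact_mod_cast (Real.exp_pos t).ne'

theorem chainMap_hasFDerivAt (e₁ e₂ : H) (β : ℝ → ℝ) (t : ℝ) (z : H) :
    HasFDerivAt (chainMap e₁ e₂ β t) (((Real.exp t : ℝ) : ℂ) • (ContinuousLinearMap.id ℂ H +
        (((β t : ℝ) : ℂ) • ((2 : ℕ) * (inner ℂ e₂ z) ^ (2 - 1)) •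
          (innerSL ℂ e₂)).smulRight e₁)) z :=
  (extr_hasFDerivAt e₁ e₂ (β t) z).const_smul (((Real.exp t : ℝ) : ℂ))

theorem chainMap_diff (e₁ e₂ : H) (β : ℝ → ℝ) (t : ℝ) :
    Differentiable ℂ (chainMap e₁ e₂ β t) :=
  fun z => (chainMap_hasFDerivAt e₁ e₂ β t z).differentiableAt

theorem extr_differentiable (e₁ e₂ : H) (a : ℝ) : Differentiable ℂ (extr e₁ e₂ a) :=
  fun z => (extr_hasFDerivAt e₁ e₂ a z).differentiableAt

theorem chainMap_univ {e₁ e₂ : H} (h12 : inner ℂ e₂ e₁ = 0) (β : ℝ → ℝ) (t : ℝ) :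
    Univalent (chainMap e₁ e₂ β t) := by
  set G : H → H := fun w => extr e₁ e₂ (-(β t)) (((Real.exp (-t) : ℝ) : ℂ) • w) with hG
  have hGd : Differentiable ℂ G :=
    (extr_differentiable e₁ e₂ (-(β t))).comp (differentiable_id.const_smul _)
  have h1 : Function.LeftInverse G (chainMap e₁ e₂ β t) := by
    intro z
    simp only [hG, chainMap, smul_smul, ← Complex.ofReal_mul, ← Real.exp_add]
    rw [neg_add_cancel, Real.exp_zero, Complex.ofReal_one, one_smul, extr_add h12,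
      neg_add_cancel, extr_zero']
  have h2 : Function.RightInverse G (chainMap e₁ e₂ β t) := by
    intro z
    simp only [hG, chainMap]
    rw [extr_add h12, add_neg_cancel, extr_zero', smul_smul, ← Complex.ofReal_mul,
      ← Real.exp_add, add_neg_cancel, Real.exp_zero, Complex.ofReal_one, one_smul]
  refine ⟨(chainMap_diff e₁ e₂ β t).differentiableOn, ?_, G, hGd.differentiableOn,
    fun z _ => h1 z⟩
  rw [Set.image_eq_preimage_of_inverse h1 h2]
  exact isOpen_ball.preimage hGd.continuous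

theorem bessel_two {e₁ e₂ : H} (h1 : ‖e₁‖ = 1) (h2 : ‖e₂‖ = 1) (h12 : inner ℂ e₂ e₁ = 0) (z : H) :
    ‖inner ℂ e₁ z‖ ^ 2 + ‖inner ℂ e₂ z‖ ^ 2 ≤ ‖z‖ ^ 2 := by
  have h21 : inner ℂ e₁ e₂ = 0 := by rw [← inner_conj_symm, h12, map_zero]
  have ho : Orthonormal ℂ ![e₁, e₂] := by
    constructor
    · intro i
      fin_cases i <;> simp [h1, h2]
    · intro i j hij
      fin_cases i <;> fin_cases j <;> simp_all
  have := ho.sum_inner_products_le (s := Finset.univ) z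
  simpa [Fin.sum_univ_two] using this

theorem step_norm {e₁ e₂ : H} (h1 : ‖e₁‖ = 1) (h2 : ‖e₂‖ = 1) (h12 : inner ℂ e₂ e₁ = 0)
    {b lam : ℝ} (hb0 : 0 ≤ b) (hb : b ≤ 3 * Real.sqrt 3 / 2 * (1 - lam)) (hl : 0 < lam)
    (hl1 : lam ≤ 1) {z : H} (hz : ‖z‖ ≤ 1) : ‖(lam : ℂ) • extr e₁ e₂ b z‖ ≤ 1 := by
  set a : ℝ := 3 * Real.sqrt 3 / 2 with ha
  have ha0 : 0 ≤ a := by positivity
  have ha2 : a ^ 2 = 27 / 4 := by
    have := Real.sq_sqrt (by norm_num : (0 : ℝ) ≤ 3)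
    rw [ha]
    nlinarith
  set x : ℝ := ‖inner ℂ e₁ z‖ with hx
  set y : ℝ := ‖inner ℂ e₂ z‖ with hy
  have hsum : x ^ 2 + y ^ 2 ≤ ‖z‖ ^ 2 := bessel_two h1 h2 h12 z
  have hz2 : ‖z‖ ^ 2 ≤ 1 := pow_le_one₀ (norm_nonneg _) hz
  set c : ℂ := (b : ℂ) * (inner ℂ e₂ z) ^ 2 with hc
  have hcn : ‖c‖ = b * y ^ 2 := by
    rw [hc, norm_mul, norm_pow, Complex.norm_real, Real.norm_of_nonneg hb0]
  have hcn' : ‖c‖ ≤ a * (1 - lam) * y ^ 2 := by
    rw [hcn]; gcongr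
  have hext : ‖extr e₁ e₂ b z‖ ^ 2 ≤ ‖z‖ ^ 2 + 2 * (x * ‖c‖) + ‖c‖ ^ 2 := by
    have h5 := norm_add_sq (𝕜 := ℂ) z (c • e₁)
    have h6 : inner ℂ z (c • e₁) = c * inner ℂ z e₁ := inner_smul_right _ _ _
    have h7 : ‖c • e₁‖ = ‖c‖ := by rw [norm_smul, h1, mul_one]
    rw [h6, h7] at h5
    have h8 : RCLike.re (c * inner ℂ z e₁) ≤ x * ‖c‖ := by
      refine (RCLike.re_le_norm _).trans ?_
      rw [norm_mul, norm_inner_symm, mul_comm]
    have h9 : extr e₁ e₂ b z = z + c • e₁ := rfl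
    rw [h9, h5]
    linarith
  have hfin : ‖(lam : ℂ) • extr e₁ e₂ b z‖ ^ 2 ≤ 1 := by
    rw [norm_smul, Complex.norm_real, Real.norm_of_nonneg hl.le, mul_pow]
    have hl0 : 0 ≤ 1 - lam := by linarith
    have h5 : ‖extr e₁ e₂ b z‖ ^ 2 ≤ 1 + 3 * Real.sqrt 3 * (1 - lam) * x * y ^ 2 +
        27 / 4 * (1 - lam) ^ 2 * (y ^ 2) ^ 2 := by
      refine hext.trans ?_
      have e1 : 2 * (x * (a * (1 - lam) * y ^ 2)) = 3 * Real.sqrt 3 * (1 - lam) * x * y ^ 2 := by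
        rw [ha]; ring
      have e2 : (a * (1 - lam) * y ^ 2) ^ 2 = 27 / 4 * (1 - lam) ^ 2 * (y ^ 2) ^ 2 := by
        rw [mul_pow, mul_pow, ha2]
      rw [← e1, ← e2]
      have h6 : x * ‖c‖ ≤ x * (a * (1 - lam) * y ^ 2) :=
        mul_le_mul_of_nonneg_left hcn' (norm_nonneg _)
      have h7 : ‖c‖ ^ 2 ≤ (a * (1 - lam) * y ^ 2) ^ 2 :=
        pow_le_pow_left₀ (norm_nonneg _) hcn' 2
      linarith
    calc lam ^ 2 * ‖extr e₁ e₂ b z‖ ^ 2 ≤ lam ^ 2 * (1 + 3 * Real.sqrt 3 * (1 - lam) *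
          x * y ^ 2 + 27 / 4 * (1 - lam) ^ 2 * (y ^ 2) ^ 2) := by gcongr
      _ ≤ 1 := core_ineq (by positivity) (by linarith) hl hl1
  have h5 : ‖(lam : ℂ) • extr e₁ e₂ b z‖ ^ 2 ≤ 1 ^ 2 := by rw [one_pow]; exact hfin
  exact (pow_le_pow_iff_left₀ (norm_nonneg _) zero_le_one two_ne_zero).1 h5

theorem chainMap_chain {e₁ e₂ : H} (h1 : ‖e₁‖ = 1) (h2 : ‖e₂‖ = 1) (h12 : inner ℂ e₂ e₁ = 0)
    {β : ℝ → ℝ} (hβ : ∀ s t, 0 ≤ s → s ≤ t → 0 ≤ β s - β t * Real.exp (s - t) ∧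
      β s - β t * Real.exp (s - t) ≤ 3 * Real.sqrt 3 / 2 * (1 - Real.exp (s - t))) :
    IsLoewnerChain (chainMap e₁ e₂ β) := by
  refine ⟨fun t _ => chainMap_univ h12 β t, fun t _ => by simp [chainMap, extr], ?_, ?_⟩
  · intro t _
    rw [(chainMap_hasFDerivAt e₁ e₂ β t 0).fderiv]
    congr 1
    ext w
    simp
  · rintro s t hs hst _ ⟨z, hz, rfl⟩
    set lam : ℝ := Real.exp (s - t) with hlam
    have hl : 0 < lam := Real.exp_pos _
    have hl1 : lam ≤ 1 := by rw [hlam, Real.exp_le_one_iff]; linarith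
    set b : ℝ := β s - β t * lam with hb
    obtain ⟨hb0, hb1⟩ := hβ s t hs hst
    refine ⟨(lam : ℂ) • extr e₁ e₂ b z, ?_, ?_⟩
    · rw [mem_ball_zero_iff] at *
      have hd : DifferentiableOn ℂ (fun z => (lam : ℂ) • extr e₁ e₂ b z) (ball 0 1) := fun z _ =>
        (((extr_hasFDerivAt e₁ e₂ b z).differentiableAt).fun_const_smul
          (lam : ℂ)).differentiableWithinAt
      have h0 : (fun z => (lam : ℂ) • extr e₁ e₂ b z) (0 : H) = 0 := by simp [extr]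
      have hm : MapsTo (fun z => (lam : ℂ) • extr e₁ e₂ b z) (ball 0 1)
          (closedBall (0 : H) 1) := by
        intro w hw
        rw [mem_closedBall_zero_iff]
        exact step_norm h1 h2 h12 hb0 hb1 hl hl1 (mem_ball_zero_iff.1 hw).le
      exact (Complex.norm_le_norm_of_mapsTo_ball hd hm h0 hz).trans_lt hz
    · show ((Real.exp t : ℝ) : ℂ) • extr e₁ e₂ (β t) ((lam : ℂ) • extr e₁ e₂ b z) =
        ((Real.exp s : ℝ) : ℂ) • extr e₁ e₂ (β s) z
      rw [extr_smul, extr_add h12, smul_smul, hlam, ← Complex.ofReal_mul, ← Real.exp_add]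
      congr 3
      · ring
      · rw [hb, hlam]; ring

theorem quadPart_extr {e₁ e₂ : H} (h2 : ‖e₂‖ = 1) (a : ℝ) :
    quadPart (extr e₁ e₂ a) e₂ = (a : ℂ) • e₁ := by
  rw [quadPart_eq]
  have e1 : (fun t : ℂ => extr e₁ e₂ a (t • e₂)) =
      fun t : ℂ => t ^ 1 • e₂ + t ^ 2 • ((a : ℂ) • e₁) := by
    ext1 t
    simp only [extr, pow_one, smul_smul, inner_smul_right, inner_self_eq_norm_sq_to_K, h2]
    congr 2
    simp
    ring
  rw [e1, tc_add 2 (by fun_prop) (by fun_prop), tc_pow_smul, tc_pow_smul, if_neg (by omega),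
    if_pos rfl, zero_add]

end Extremal

section Final

omit [CompleteSpace H] in
theorem quadNorm_le_of {f : H → H} {C : ℝ} (hC : 0 ≤ C)
    (h : ∀ w u : H, ‖w‖ = 1 → ‖u‖ = 1 → ‖inner ℂ w (quadPart f u)‖ ≤ C) : quadNorm f ≤ C := by
  apply Real.sSup_le _ hC
  rintro _ ⟨z, hz, rfl⟩
  exact norm_le_of_inner hC (fun w hw => h w z hw (by simpa using hz))

omit [CompleteSpace H] in
theorem isGreatest_of {S : Set (H → H)} {e₁ e₂ : H} (h1 : ‖e₁‖ = 1) (h2 : ‖e₂‖ = 1) {a : ℝ}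
    (ha : 0 ≤ a) (hmem : extr e₁ e₂ a ∈ S)
    (h : ∀ f ∈ S, ∀ w u : H, ‖w‖ = 1 → ‖u‖ = 1 → ‖inner ℂ w (quadPart f u)‖ ≤ a) :
    IsGreatest (quadNorm '' S) a := by
  constructor
  · refine ⟨extr e₁ e₂ a, hmem, ?_⟩
    apply le_antisymm (quadNorm_le_of ha (h _ hmem))
    have hbdd : BddAbove ((fun z => ‖quadPart (extr e₁ e₂ a) z‖) '' sphere (0 : H) 1) := by
      refine ⟨a, ?_⟩
      rintro _ ⟨z, hz, rfl⟩
      exact norm_le_of_inner ha (fun w hw => h _ hmem w z hw (by simpa using hz))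
    apply le_csSup hbdd
    refine ⟨e₂, by simpa using h2, ?_⟩
    simp only
    rw [quadPart_extr h2, norm_smul, Complex.norm_real, Real.norm_of_nonneg ha, h1, mul_one]
  · rintro _ ⟨f, hf, rfl⟩
    exact quadNorm_le_of ha (h f hf)

omit [CompleteSpace H] in
theorem extr_mem_classS0 {e₁ e₂ : H} (h1 : ‖e₁‖ = 1) (h2 : ‖e₂‖ = 1) (h12 : inner ℂ e₂ e₁ = 0)
    {𝒩 : Set (H → H) → Prop} (h𝒩 : 𝒩 = IsNormalFamily ∨ 𝒩 = IsLocallyBounded) :
    extr e₁ e₂ (3 * Real.sqrt 3 / 2) ∈ classS0 𝒩 := by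
  set a : ℝ := 3 * Real.sqrt 3 / 2 with ha
  have ha0 : 0 ≤ a := by positivity
  refine ⟨chainMap e₁ e₂ (fun _ => a), chainMap_chain h1 h2 h12 ?_, ?_, ?_⟩
  · intro s t _ hst
    have hl1 : Real.exp (s - t) ≤ 1 := by rw [Real.exp_le_one_iff]; linarith
    constructor
    · nlinarith
    · rw [← ha]; linarith
  · ext1 z
    simp [chainMap]
  · have hfam : ∀ g : H → H, g ∈ {g | ∃ t : ℝ, 0 ≤ t ∧
        g = fun z => ((Real.exp (-t) : ℝ) : ℂ) • chainMap e₁ e₂ (fun _ => a) t z} →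
        g = extr e₁ e₂ a := by
      rintro g ⟨t, _, hgt⟩
      rw [hgt]
      ext1 z
      rw [chainMap, smul_smul, ← Complex.ofReal_mul, ← Real.exp_add]
      simp
    rcases h𝒩 with h | h
    · rw [h]
      intro g hg
      refine ⟨id, strictMono_id, extr e₁ e₂ a, ?_⟩
      have h1 : ∀ k, g k = extr e₁ e₂ a := fun k => hfam _ (hg k)
      simp only [h1]
      exact TendstoUniformlyOn.tendstoLocallyUniformlyOn (fun u hu => by
        filter_upwards with k z _ using refl_mem_uniformity hu)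
    · rw [h]
      intro r hr
      refine ⟨1 + a, ?_⟩
      intro g hg z hz
      rw [hfam g hg, extr]
      have hz1 : ‖z‖ ≤ 1 := hz.trans hr.le
      refine (norm_add_le _ _).trans ?_
      rw [norm_smul, norm_mul, norm_pow, Complex.norm_real, Real.norm_of_nonneg ha0, h1, mul_one]
      have h3 : ‖inner ℂ e₂ z‖ ≤ 1 := by
        refine (norm_inner_le_norm _ _).trans ?_
        rw [h2, one_mul]; exact hz1
      have h4 : ‖inner ℂ e₂ z‖ ^ 2 ≤ 1 := pow_le_one₀ (norm_nonneg _) h3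
      have h5 : a * ‖inner ℂ e₂ z‖ ^ 2 ≤ a * 1 := mul_le_mul_of_nonneg_left h4 ha0
      linarith

omit [CompleteSpace H] in
theorem extr_mem_reachable {e₁ e₂ : H} (h1 : ‖e₁‖ = 1) (h2 : ‖e₂‖ = 1) (h12 : inner ℂ e₂ e₁ = 0)
    {T : ℝ} (hT : 0 < T) :
    extr e₁ e₂ (3 * Real.sqrt 3 / 2 * (1 - Real.exp (-T))) ∈ reachable H T := by
  set a : ℝ := 3 * Real.sqrt 3 / 2 with ha
  have ha0 : 0 ≤ a := by positivity
  refine ⟨chainMap e₁ e₂ (fun t => a * (1 - Real.exp (min t T - T))),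
    chainMap_chain h1 h2 h12 ?_, ?_, ?_⟩
  · intro s t _ hst
    rw [← ha]
    have e0 : a * (1 - Real.exp (min s T - T)) - a * (1 - Real.exp (min t T - T)) *
        Real.exp (s - t) = a * (1 - Real.exp (min s T - T) - Real.exp (s - t) +
          Real.exp (min t T - T + (s - t))) := by
      rw [Real.exp_add]; ring
    rw [e0]
    have hst1 : Real.exp (s - t) ≤ 1 := by rw [Real.exp_le_one_iff]; linarith
    rcases le_total t T with h | h
    · have e1 : min t T - T + (s - t) = min s T - T := by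
        rw [min_eq_left h, min_eq_left (hst.trans h)]; ring
      rw [e1]
      constructor
      · apply mul_nonneg ha0; linarith
      · apply le_of_eq; ring
    · have e1 : min t T - T + (s - t) = s - t := by rw [min_eq_right h]; ring
      rw [e1]
      have h3 : Real.exp (min s T - T) ≤ 1 := by
        rw [Real.exp_le_one_iff]
        have := min_le_right s T
        linarith
      have h4 : Real.exp (s - t) ≤ Real.exp (min s T - T) := by
        rw [Real.exp_le_exp]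
        rcases le_total s T with h5 | h5
        · rw [min_eq_left h5]; linarith
        · rw [min_eq_right h5]; linarith
      constructor
      · apply mul_nonneg ha0; linarith
      · apply mul_le_mul_of_nonneg_left _ ha0; linarith
  · ext1 z
    simp only [chainMap]
    rw [min_eq_left hT.le, zero_sub, Real.exp_zero, Complex.ofReal_one, one_smul]
  · intro z _
    simp only [chainMap]
    rw [min_self, sub_self, Real.exp_zero, sub_self, mul_zero, extr_zero']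

/-- On `ℂ^n` univalent means holomorphic and injective (Osgood). -/
theorem univalent_iff {n : ℕ} (f : EuclideanSpace ℂ (Fin n) → EuclideanSpace ℂ (Fin n)) :
    Univalent f ↔ DifferentiableOn ℂ f (ball 0 1) ∧ InjOn f (ball 0 1) := by
  refine ⟨fun h => ⟨h.1, h.injOn⟩, fun ⟨hd, hinj⟩ => ?_⟩
  have hopen : IsOpen (f '' ball 0 1) := by
    rw [isOpen_iff_mem_nhds]
    rintro _ ⟨a, ha, rfl⟩
    have hinjd := osgood (Module.finrank ℂ (EuclideanSpace ℂ (Fin n))) _ _ rfl rfl (ball 0 1)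
      isOpen_ball f hd hinj a ha
    let T : EuclideanSpace ℂ (Fin n) ≃ₗ[ℂ] EuclideanSpace ℂ (Fin n) :=
      LinearEquiv.ofInjectiveOfFinrankEq
        (fderiv ℂ f a : EuclideanSpace ℂ (Fin n) →ₗ[ℂ] EuclideanSpace ℂ (Fin n)) hinjd rfl
    have hT : (T.toContinuousLinearEquiv : EuclideanSpace ℂ (Fin n) →L[ℂ]
        EuclideanSpace ℂ (Fin n)) = fderiv ℂ f a := by
      ext1 y
      rfl
    have hstr : HasStrictFDerivAt f (T.toContinuousLinearEquiv : EuclideanSpace ℂ (Fin n) →L[ℂ]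
        EuclideanSpace ℂ (Fin n)) a := by
      rw [hT]
      have h1 : ContDiffAt ℂ (1 : ℕ) f a :=
        (contDiffOn_of_differentiableOn isOpen_ball hd 1).contDiffAt (isOpen_ball.mem_nhds ha)
      exact h1.hasStrictFDerivAt (by simp)
    rw [← hstr.map_nhds_eq_of_equiv]
    exact image_mem_map (isOpen_ball.mem_nhds ha)
  refine ⟨hd, hopen, Function.invFunOn f (ball 0 1), ?_, ?_⟩
  · apply differentiableOn_of_comp rfl isOpen_ball hopen hd hinj (g := fun w => w)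
      differentiableOn_id
    · intro w hw
      exact Function.invFunOn_mem hw
    · intro w hw
      exact Function.invFunOn_eq hw
  · intro z hz
    exact hinj (Function.invFunOn_mem ⟨z, hz, rfl⟩) hz (Function.invFunOn_eq ⟨z, hz, rfl⟩)

/-- On `ℂ^n` the second order term is `(1/2) D^2 f(0)(z,z)`. -/
theorem quadPart_eq_iteratedFDeriv {n : ℕ}
    {f : EuclideanSpace ℂ (Fin n) → EuclideanSpace ℂ (Fin n)}
    (hf : DifferentiableOn ℂ f (ball 0 1)) (z : EuclideanSpace ℂ (Fin n)) :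
    quadPart f z = (1 / 2 : ℂ) • iteratedFDeriv ℂ 2 f 0 ![z, z] := by
  rw [quadPart_eq, tc_slice one_pos hf]
  congr 1
  · norm_num [Nat.factorial]
  · congr 1
    ext i : 1
    fin_cases i <;> rfl

/-- Every angle corresponds to exactly one value of the parameter `X`. -/
theorem existsUnique_param {c : ℝ} (hc0 : 0 ≤ c) (hc1 : c ≤ 1) :
    ∃! X : ℝ, X ∈ Icc (1 / 3 : ℝ) 1 ∧ c ^ 2 * (X ^ 2 * (3 - X)) = 3 * X - 1 := by
  have hcc : c ^ 2 ≤ 1 := pow_le_one₀ hc0 hc1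
  have hcc0 : 0 ≤ c ^ 2 := sq_nonneg c
  have hcont : ContinuousOn (fun X : ℝ => 3 * X - 1 - c ^ 2 * (X ^ 2 * (3 - X)))
      (Icc (1 / 3 : ℝ) 1) := by fun_prop
  have hi := intermediate_value_Icc (by norm_num : (1 / 3 : ℝ) ≤ 1) hcont
  have hm : (0 : ℝ) ∈ Icc (3 * (1 / 3 : ℝ) - 1 - c ^ 2 * ((1 / 3 : ℝ) ^ 2 * (3 - 1 / 3)))
      (3 * (1 : ℝ) - 1 - c ^ 2 * ((1 : ℝ) ^ 2 * (3 - 1))) := by
    constructor <;> nlinarith
  obtain ⟨X, hX, hXe⟩ := hi hm
  simp only at hXe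
  refine ⟨X, ⟨hX, by linarith⟩, ?_⟩
  rintro Z ⟨hZ, hZe⟩
  by_contra hne
  have h1 : (Z - X) * (3 - c ^ 2 * (3 * (Z + X) - (Z ^ 2 + Z * X + X ^ 2))) = 0 := by
    linear_combination -hZe - hXe
  have h2 := (mul_eq_zero.1 h1).resolve_left (sub_ne_zero.2 hne)
  have hZ1 := hZ.1
  have hZ2 := hZ.2
  have hX1 := hX.1
  have hX2 := hX.2
  -- `3 (Z + X) - (Z² + ZX + X²) ≤ 3` with equality only at `Z = X = 1`
  have h3 : 3 * (Z + X) - (Z ^ 2 + Z * X + X ^ 2) =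
      3 - ((1 - Z) ^ 2 + (1 - Z) * (1 - X) + (1 - X) ^ 2) := by ring
  have h4 : 0 < (1 - Z) ^ 2 + (1 - Z) * (1 - X) + (1 - X) ^ 2 := by
    rcases lt_or_gt_of_ne hne with h | h
    · have : 0 < 1 - Z := by linarith
      have h5 : 0 ≤ 1 - X := by linarith
      positivity
    · have : 0 < 1 - X := by linarith
      have h5 : 0 ≤ 1 - Z := by linarith
      positivity
  rw [h3] at h2
  have h5 : 0 ≤ 3 - ((1 - Z) ^ 2 + (1 - Z) * (1 - X) + (1 - X) ^ 2) := by nlinarith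
  nlinarith [mul_le_mul_of_nonneg_right hcc h5]

end Final

/-- **Sharp bounds for the second order term, in all dimensions, for all reachable times and in
all directions.**

(1) `M_n = 3 √3 / 2` for every `n ≥ 2`.

(2) The same in every complex Hilbert space `H` of dimension at least two (also of infinite
dimension), with either of the two usual normalizations of the chain.

(3) A sharp bound for every time `T > 0`: the supremum of `‖P_2‖` over the maps reachable in time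
`T` (which satisfy `‖f‖ ≤ e^T`) is `(3 √3 / 2) (1 - e^{-T})`, and it is attained.

(4) A bound for every pair of unit vectors `u`, `w` which depends only on the angle between them:
if `|⟨u, w⟩|² = (3X - 1)/(X² (3 - X))`, `1/3 ≤ X ≤ 1`, then `|⟨P_2(u), w⟩| ≤ 4/(√X (3 - X))` on
`S^0`, and `≤ 4 (1 - e^{-T})/(√X (3 - X))` for the maps reachable in time `T`.  For orthogonal
vectors (`X = 1/3`) this is `3 √3/2`, for `w = u` (`X = 1`) it is the bound `2` for the numerical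
radius.  (5) says that each angle has exactly one parameter `X`.

(6), (7): on `ℂ^n` univalent means holomorphic and injective and `quadPart f z` is
`(1/2) D^2 f(0)(z,z)`. -/
theorem result.{u} :
    (∀ n : ℕ, 2 ≤ n → IsGreatest
      (quadNorm '' classS0 (H := EuclideanSpace ℂ (Fin n)) IsNormalFamily)
      (3 * Real.sqrt 3 / 2)) ∧
    (∀ (H : Type u) [NormedAddCommGroup H] [InnerProductSpace ℂ H] [CompleteSpace H],
      (∃ e₁ e₂ : H, ‖e₁‖ = 1 ∧ ‖e₂‖ = 1 ∧ inner ℂ e₂ e₁ = 0) →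
      IsGreatest (quadNorm '' classS0 (H := H) IsNormalFamily) (3 * Real.sqrt 3 / 2) ∧
      IsGreatest (quadNorm '' classS0 (H := H) IsLocallyBounded) (3 * Real.sqrt 3 / 2) ∧
      (∀ T : ℝ, 0 < T → IsGreatest (quadNorm '' reachable H T)
        (3 * Real.sqrt 3 / 2 * (1 - Real.exp (-T)))) ∧
      ∀ X ∈ Icc (1 / 3 : ℝ) 1, ∀ u w : H, ‖u‖ = 1 → ‖w‖ = 1 →
        ‖inner ℂ u w‖ ^ 2 = (3 * X - 1) / (X ^ 2 * (3 - X)) →
        (∀ f ∈ classS0 (H := H) IsNormalFamily ∪ classS0 (H := H) IsLocallyBounded,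
          ‖inner ℂ w (quadPart f u)‖ ≤ 4 / (Real.sqrt X * (3 - X))) ∧
        ∀ T : ℝ, 0 < T → ∀ f ∈ reachable H T,
          ‖inner ℂ w (quadPart f u)‖ ≤ 4 / (Real.sqrt X * (3 - X)) * (1 - Real.exp (-T))) ∧
    (∀ c : ℝ, 0 ≤ c → c ≤ 1 →
      ∃! X : ℝ, X ∈ Icc (1 / 3 : ℝ) 1 ∧ c ^ 2 = (3 * X - 1) / (X ^ 2 * (3 - X))) ∧
    (∀ (n : ℕ) (f : EuclideanSpace ℂ (Fin n) → EuclideanSpace ℂ (Fin n)),
      Univalent f ↔ DifferentiableOn ℂ f (ball 0 1) ∧ InjOn f (ball 0 1)) ∧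
    (∀ (n : ℕ) (f : EuclideanSpace ℂ (Fin n) → EuclideanSpace ℂ (Fin n)),
      DifferentiableOn ℂ f (ball 0 1) → ∀ z,
        quadPart f z = (1 / 2 : ℂ) • iteratedFDeriv ℂ 2 f 0 ![z, z]) := by
  have hmain : ∀ (H : Type u) [NormedAddCommGroup H] [InnerProductSpace ℂ H] [CompleteSpace H],
      (∃ e₁ e₂ : H, ‖e₁‖ = 1 ∧ ‖e₂‖ = 1 ∧ inner ℂ e₂ e₁ = 0) →
      ∀ 𝒩 : Set (H → H) → Prop, (𝒩 = IsNormalFamily ∨ 𝒩 = IsLocallyBounded) →
      IsGreatest (quadNorm '' classS0 (H := H) 𝒩) (3 * Real.sqrt 3 / 2) := by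
    rintro H _ _ _ ⟨e₁, e₂, h1, h2, h12⟩ 𝒩 h𝒩
    exact isGreatest_of h1 h2 (by positivity) (extr_mem_classS0 h1 h2 h12 h𝒩)
      (fun f hf w u hw hu => inner_le_classS0 h𝒩 hf hw hu (cbound_norm w u hw hu))
  refine ⟨?_, ?_, ?_, fun n f => univalent_iff f,
    fun n f hf z => quadPart_eq_iteratedFDeriv hf z⟩
  · intro n hn
    have i : Fin n := ⟨0, by omega⟩
    have h1 : IsGreatest (quadNorm '' classS0 (H := EuclideanSpace ℂ (Fin n)) IsNormalFamily)
        (3 * Real.sqrt 3 / 2) := by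
      let i : Fin n := ⟨0, by omega⟩
      let j : Fin n := ⟨1, by omega⟩
      have hij : j ≠ i := by simp [i, j]
      have e1 : ‖(EuclideanSpace.single i (1 : ℂ) : EuclideanSpace ℂ (Fin n))‖ = 1 := by simp
      have e2 : ‖(EuclideanSpace.single j (1 : ℂ) : EuclideanSpace ℂ (Fin n))‖ = 1 := by simp
      have e3 : inner ℂ (EuclideanSpace.single j (1 : ℂ) : EuclideanSpace ℂ (Fin n))
          (EuclideanSpace.single i (1 : ℂ)) = 0 := by
        simp [EuclideanSpace.inner_single_left, hij]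
      exact isGreatest_of e1 e2 (by positivity) (extr_mem_classS0 e1 e2 e3 (Or.inl rfl))
        (fun f hf w u hw hu => inner_le_classS0 (Or.inl rfl) hf hw hu (cbound_norm w u hw hu))
    exact h1
  · intro H _ _ _ hH
    refine ⟨hmain H hH _ (Or.inl rfl), hmain H hH _ (Or.inr rfl), ?_, ?_⟩
    · intro T hT
      obtain ⟨e₁, e₂, h1, h2, h12⟩ := hH
      have hT1 : 0 ≤ 1 - Real.exp (-T) := by
        have : Real.exp (-T) ≤ 1 := by rw [Real.exp_le_one_iff]; linarith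
        linarith
      exact isGreatest_of h1 h2 (mul_nonneg (by positivity) hT1) (extr_mem_reachable h1 h2 h12 hT)
        (fun f hf w u hw hu => inner_le_reachable hT hf hu (cbound_norm w u hw hu))
    · intro X hX u w hu hw hc
      have hc' : ‖inner ℂ u w‖ ^ 2 * (X ^ 2 * (3 - X)) = 3 * X - 1 := by
        have h3 : 0 < X ^ 2 * (3 - X) := by
          have : 0 < X := by linarith [hX.1]
          have : 0 < 3 - X := by linarith [hX.2]
          positivity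
        rw [hc, div_mul_cancel₀ _ h3.ne']
      refine ⟨?_, fun T hT f hf => inner_le_reachable hT hf hu (cbound_dir hw hu hX hc')⟩
      rintro f (hf | hf)
      · exact inner_le_classS0 (Or.inl rfl) hf hw hu (cbound_dir hw hu hX hc')
      · exact inner_le_classS0 (Or.inr rfl) hf hw hu (cbound_dir hw hu hX hc')
  · intro c hc0 hc1
    obtain ⟨X, ⟨hX, he⟩, hu⟩ := existsUnique_param hc0 hc1
    have hpos : ∀ Z : ℝ, Z ∈ Icc (1 / 3 : ℝ) 1 → 0 < Z ^ 2 * (3 - Z) := by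
      intro Z hZ
      have : 0 < Z := by linarith [hZ.1]
      have : 0 < 3 - Z := by linarith [hZ.2]
      positivity
    refine ⟨X, ⟨hX, by rw [eq_div_iff (hpos X hX).ne']; exact he⟩, ?_⟩
    rintro Z ⟨hZ, hZe⟩
    apply hu Z
    refine ⟨hZ, ?_⟩
    rw [hZe, div_mul_cancel₀ _ (hpos Z hZ).ne']

end Pool.Agent.Results.MP_2306a6_an.HilbertReachable
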